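import Mathlib

set_option autoImplicit false

/-! # Diversity-seeking jump games on trees are not always weakly acyclic

The tree has 20 nodes, there are 19 agents of two types and one empty node. There are four colourings
of the tree (with one empty node each) such that in each of them exactly one agent has an improving
jump, and this jump leads to the next of the four colourings. -/

namespace Pool.Agent.Results.MP_39759c_lc.NotWeaklyAcyclic

/-- A diversity-seeking jump game: a finite connected graph `G` (the topology), `k ≥ 2` types, and a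
finite set `A` of agents with types `ty`, with fewer agents than nodes. -/
structure Game where
  V : Type
  [finV : Fintype V]
  G : SimpleGraph V
  connected : G.Connected
  k : ℕ
  two_le : 2 ≤ k
  A : Type
  [finA : Fintype A]
  ty : A → Fin k
  card_lt : Fintype.card A < Fintype.card V

attribute [instance] Game.finV Game.finA

namespace Game

variable (g : Game)

/-- An assignment places the agents injectively on nodes. The utility of the agent `i` is the number
of agents of another type on the nodes adjacent to the node of `i`, divided by the number of all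
agents on these nodes (and `0` if there are none: `x / 0 = 0`). -/
noncomputable def utility (σ : g.A ↪ g.V) (i : g.A) : ℚ :=
  ({j | g.G.Adj (σ i) (σ j) ∧ g.ty j ≠ g.ty i}.ncard : ℚ) / ({j | g.G.Adj (σ i) (σ j)}.ncard : ℚ)

/-- An improving jump from `σ` to `τ`: one agent `i` moves to a node which is empty in `σ`, and its
utility strictly increases. -/
def Jump (σ τ : g.A ↪ g.V) : Prop :=
  ∃ i, (∀ j, j ≠ i → τ j = σ j) ∧ (∀ j, σ j ≠ τ i) ∧ g.utility σ i < g.utility τ i

/-- An equilibrium: no agent has an improving jump. -/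
def Equilibrium (σ : g.A ↪ g.V) : Prop := ∀ τ, ¬ g.Jump σ τ

/-- The game is weakly acyclic: from every assignment some finite sequence of improving jumps ends in
an equilibrium. -/
def WeaklyAcyclic : Prop := ∀ σ, ∃ τ, Relation.ReflTransGen g.Jump σ τ ∧ g.Equilibrium τ

end Game

/-! ### The example -/

/-- the parents of the nodes, the root is `0` -/
def par : Fin 20 → Fin 20 :=
  ![0, 0, 0, 1, 3, 2, 0, 0, 7, 6, 1, 1, 1, 0, 13, 10, 15, 11, 12, 9]

/-- adjacency in the tree -/
def adj (u v : Fin 20) : Bool := decide (u ≠ v) && (decide (par u = v) || decide (par v = u))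

theorem adj_symm (u v : Fin 20) (h : adj u v = true) : adj v u = true := by
  simp only [adj, Bool.and_eq_true, Bool.or_eq_true, decide_eq_true_eq] at h ⊢
  exact ⟨h.1.symm, h.2.symm⟩

/-- the tree -/
def T : SimpleGraph (Fin 20) where
  Adj u v := adj u v = true
  symm := ⟨fun u v h => adj_symm u v h⟩
  loopless := ⟨fun u h => by simp [adj] at h⟩

instance : DecidableRel T.Adj := fun u v => inferInstanceAs (Decidable (adj u v = true))

/-- the empty node moves around in this order -/
def hole : Fin 4 → Fin 20 := ![0, 10, 1, 6]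

/-- the type of the agent on each node; the four nodes `0, 10, 1, 6`, one of which is empty, are all of
type `0` -/
def col : Fin 20 → Fin 2 := ![0, 0, 1, 1, 0, 0, 0, 1, 0, 1, 0, 1, 1, 1, 0, 1, 0, 0, 0, 0]

theorem T_reach : ∀ (n : ℕ) (v : Fin 20), v.val = n → T.Reachable v 0 := by
  intro n
  induction n using Nat.strong_induction_on with
  | _ n ih =>
    intro v hv
    by_cases h0 : v = 0
    · rw [h0]
    · have h1 : ∀ w : Fin 20, w ≠ 0 → (par w).val < w.val ∧ adj w (par w) = true := by decide
      obtain ⟨h2, h3⟩ := h1 v h0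
      exact (SimpleGraph.Adj.reachable (G := T) h3).trans (ih _ (hv ▸ h2) (par v) rfl)

theorem T_connected : T.Connected := by
  have : Nonempty (Fin 20) := ⟨0⟩
  exact SimpleGraph.Connected.mk fun u v => (T_reach _ u rfl).trans (T_reach _ v rfl).symm

theorem T_card : T.edgeFinset.card = 19 := by decide +kernel

theorem T_tree : T.IsTree := by
  rw [SimpleGraph.isTree_iff_connected_and_card]
  refine ⟨T_connected, ?_⟩
  rw [Nat.card_eq_fintype_card, ← SimpleGraph.edgeFinset_card, T_card, Nat.card_eq_fintype_card]
  rfl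

/-- the number of nodes other than the empty node `h` with the property `p` -/
def cnt (h : Fin 20) (p : Fin 20 → Bool) : ℕ := (Finset.univ.filter fun w => w ≠ h ∧ p w = true).card

/-- In each of the four positions every agent has a neighbour, the jump of the agent on the next hole
is improving, and no other jump is. -/
theorem check : ∀ s : Fin 4, ∀ v : Fin 20, v ≠ hole s →
    0 < cnt (hole s) (fun w => adj v w) ∧
    (v = hole (s + 1) ∧ 0 < cnt (hole s) (fun w => adj (hole s) w && decide (w ≠ v)) ∧
        cnt (hole s) (fun w => adj v w && decide (col w ≠ col v)) *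
            cnt (hole s) (fun w => adj (hole s) w && decide (w ≠ v)) <
          cnt (hole s) (fun w => adj (hole s) w && (decide (w ≠ v) && decide (col w ≠ col v))) *
            cnt (hole s) (fun w => adj v w) ∨
      v ≠ hole (s + 1) ∧
        cnt (hole s) (fun w => adj (hole s) w && (decide (w ≠ v) && decide (col w ≠ col v))) *
            cnt (hole s) (fun w => adj v w) ≤
          cnt (hole s) (fun w => adj v w && decide (col w ≠ col v)) *
            cnt (hole s) (fun w => adj (hole s) w && decide (w ≠ v))) := by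
  decide +kernel

theorem holes : ∀ s : Fin 4, hole (s + 1) ≠ hole s ∧ col (hole (s + 1)) = col (hole s) := by decide

/-- the types of the 19 agents: agent `i` starts on the node `i + 1` -/
def ty (i : Fin 19) : Fin 2 := col i.succ

/-- the game -/
noncomputable def game : Game where
  V := Fin 20
  G := T
  connected := T_connected
  k := 2
  two_le := le_rfl
  A := Fin 19
  ty := ty
  card_lt := by simp

/-- the assignment `σ` has the empty node `h` and the types `col` -/
def P (h : Fin 20) (σ : Fin 19 ↪ Fin 20) : Prop := (∀ i, σ i ≠ h) ∧ ∀ i, ty i = col (σ i)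

theorem exists_agent {h : Fin 20} {σ : Fin 19 ↪ Fin 20} (hσ : ∀ i, σ i ≠ h) {w : Fin 20}
    (hw : w ≠ h) : ∃ i, σ i = w := by
  by_contra hcon
  push Not at hcon
  have h1 : (Finset.univ.image σ) ⊆ (Finset.univ.erase h).erase w := by
    intro x hx
    rw [Finset.mem_image] at hx
    obtain ⟨i, -, rfl⟩ := hx
    exact Finset.mem_erase.2 ⟨hcon i, Finset.mem_erase.2 ⟨hσ i, Finset.mem_univ _⟩⟩
  have h2 := Finset.card_le_card h1
  rw [Finset.card_image_of_injective _ σ.injective, Finset.card_erase_of_mem
    (Finset.mem_erase.2 ⟨hw, Finset.mem_univ _⟩), Finset.card_erase_of_mem (Finset.mem_univ _)] at h2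
  simp at h2

theorem ncard_eq {h : Fin 20} {σ : Fin 19 ↪ Fin 20} (hσ : ∀ i, σ i ≠ h) (p : Fin 20 → Bool) :
    {j | p (σ j) = true}.ncard = cnt h p := by
  have h1 : σ '' {j | p (σ j) = true} =
      ((Finset.univ.filter fun w => w ≠ h ∧ p w = true : Finset (Fin 20)) : Set (Fin 20)) := by
    ext w
    simp only [Set.mem_image, Finset.coe_filter, Finset.mem_univ, true_and]
    constructor
    · rintro ⟨j, hj, rfl⟩
      exact ⟨hσ j, hj⟩
    · rintro ⟨h2, h3⟩
      obtain ⟨i, rfl⟩ := exists_agent hσ h2
      exact ⟨i, h3, rfl⟩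
  rw [← Set.ncard_image_of_injective _ σ.injective, h1, Set.ncard_coe_finset, cnt]

theorem util_def (σ : Fin 19 ↪ Fin 20) (i : Fin 19) : game.utility σ i =
    ({j : Fin 19 | adj (σ i) (σ j) = true ∧ ty j ≠ ty i}.ncard : ℚ) /
      ({j : Fin 19 | adj (σ i) (σ j) = true}.ncard : ℚ) := rfl

theorem util_before {h : Fin 20} {σ : Fin 19 ↪ Fin 20} (hσ : P h σ) (i : Fin 19) :
    game.utility σ i = (cnt h (fun w => adj (σ i) w && decide (col w ≠ col (σ i))) : ℚ) /
      (cnt h (fun w => adj (σ i) w) : ℚ) := by
  rw [← ncard_eq hσ.1, ← ncard_eq hσ.1, util_def]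
  have h1 : {j : Fin 19 | adj (σ i) (σ j) = true ∧ ty j ≠ ty i} =
      {j | (adj (σ i) (σ j) && decide (col (σ j) ≠ col (σ i))) = true} := by
    ext j
    simp only [Set.mem_ofPred_eq, Bool.and_eq_true, decide_eq_true_eq]
    rw [hσ.2, hσ.2]
  rw [h1]

theorem util_after {h : Fin 20} {σ τ : Fin 19 ↪ Fin 20} (hσ : P h σ) (i : Fin 19) (hi : τ i = h)
    (hj : ∀ j, j ≠ i → τ j = σ j) :
    game.utility τ i =
      (cnt h (fun w => adj h w && (decide (w ≠ σ i) && decide (col w ≠ col (σ i)))) : ℚ) /
      (cnt h (fun w => adj h w && decide (w ≠ σ i)) : ℚ) := by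
  have h0 : adj h h = false := by simp [adj]
  rw [← ncard_eq hσ.1, ← ncard_eq hσ.1, util_def, hi]
  have h1 : {j : Fin 19 | adj h (τ j) = true ∧ ty j ≠ ty i} =
      {j | (adj h (σ j) && (decide (σ j ≠ σ i) && decide (col (σ j) ≠ col (σ i)))) = true} := by
    ext j
    simp only [Set.mem_ofPred_eq, Bool.and_eq_true, decide_eq_true_eq]
    rw [hσ.2, hσ.2]
    by_cases hji : j = i
    · subst hji
      rw [hi, h0]
      simp
    · rw [hj j hji]
      have h2 : σ j ≠ σ i := fun h => hji (σ.injective h)
      simp [h2]
  have h3 : {j : Fin 19 | adj h (τ j) = true} =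
      {j | (adj h (σ j) && decide (σ j ≠ σ i)) = true} := by
    ext j
    simp only [Set.mem_ofPred_eq, Bool.and_eq_true, decide_eq_true_eq]
    by_cases hji : j = i
    · subst hji
      rw [hi, h0]
      simp
    · rw [hj j hji]
      have h2 : σ j ≠ σ i := fun h => hji (σ.injective h)
      simp [h2]
  rw [h1, h3]

theorem jump_iff (σ τ : Fin 19 ↪ Fin 20) : game.Jump σ τ ↔ ∃ i : Fin 19,
    (∀ j : Fin 19, j ≠ i → τ j = σ j) ∧ (∀ j : Fin 19, σ j ≠ τ i) ∧
      game.utility σ i < game.utility τ i := Iff.rfl

/-- every improving jump moves the hole to the next of the four nodes -/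
theorem step {s : Fin 4} {σ τ : Fin 19 ↪ Fin 20} (hσ : P (hole s) σ) (hJ : game.Jump σ τ) :
    P (hole (s + 1)) τ := by
  obtain ⟨i, h1, h2, h3⟩ := (jump_iff σ τ).1 hJ
  have hi : τ i = hole s := by
    by_contra hne
    obtain ⟨j, hj⟩ := exists_agent hσ.1 hne
    exact h2 j hj
  rw [util_before hσ, util_after hσ i hi h1] at h3
  obtain ⟨h4, h5 | h5⟩ := check s (σ i) (hσ.1 i)
  · -- the agent is the next hole
    constructor
    · intro j
      by_cases hji : j = i
      · rw [hji, hi]
        exact (holes s).1.symm
      · rw [h1 j hji, ← h5.1]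
        exact fun h => hji (σ.injective h)
    · intro j
      by_cases hji : j = i
      · rw [hji, hi, hσ.2, h5.1, (holes s).2]
      · rw [h1 j hji, hσ.2]
  · exfalso
    have hb : (0 : ℚ) < (cnt (hole s) (fun w => adj (σ i) w) : ℚ) := by exact_mod_cast h4
    have hle := h5.2
    revert h3
    rw [imp_false, not_lt]
    rcases Nat.eq_zero_or_pos (cnt (hole s) (fun w => adj (hole s) w && decide (w ≠ σ i))) with h6 | h6
    · rw [h6, Nat.cast_zero, div_zero]
      positivity
    · have hd : (0 : ℚ) < (cnt (hole s) (fun w => adj (hole s) w && decide (w ≠ σ i)) : ℚ) := by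
        exact_mod_cast h6
      rw [div_le_div_iff₀ hd hb]
      exact_mod_cast hle

/-- there always is an improving jump -/
theorem exists_jump {s : Fin 4} {σ : Fin 19 ↪ Fin 20} (hσ : P (hole s) σ) : ∃ τ, game.Jump σ τ := by
  obtain ⟨i, hi⟩ := exists_agent hσ.1 (holes s).1
  have hinj : Function.Injective (Function.update σ i (hole s)) := by
    intro x y hxy
    by_cases hx : x = i
    · by_cases hy : y = i
      · rw [hx, hy]
      · rw [hx, Function.update_self, Function.update_of_ne hy] at hxy
        exact absurd hxy.symm (hσ.1 y)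
    · by_cases hy : y = i
      · rw [hy, Function.update_self, Function.update_of_ne hx] at hxy
        exact absurd hxy (hσ.1 x)
      · rw [Function.update_of_ne hx, Function.update_of_ne hy] at hxy
        exact σ.injective hxy
  let τ : Fin 19 ↪ Fin 20 := ⟨Function.update σ i (hole s), hinj⟩
  have hτi : τ i = hole s := Function.update_self _ _ _
  have hτj : ∀ j, j ≠ i → τ j = σ j := fun j hj => Function.update_of_ne hj _ _
  refine ⟨τ, (jump_iff σ τ).2 ⟨i, hτj, fun j => ?_, ?_⟩⟩
  · rw [hτi]
    exact hσ.1 j
  · rw [util_before hσ, util_after hσ i hτi hτj]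
    obtain ⟨h4, h5 | h5⟩ := check s (σ i) (hσ.1 i)
    · have hb : (0 : ℚ) < (cnt (hole s) (fun w => adj (σ i) w) : ℚ) := by exact_mod_cast h4
      have hd : (0 : ℚ) < (cnt (hole s) (fun w => adj (hole s) w && decide (w ≠ σ i)) : ℚ) := by
        exact_mod_cast h5.2.1
      rw [div_lt_div_iff₀ hb hd]
      exact_mod_cast h5.2.2
    · exact absurd hi h5.1

/-- the initial assignment: agent `i` on the node `i + 1` -/
def start : Fin 19 ↪ Fin 20 := ⟨Fin.succ, Fin.succ_injective 19⟩

theorem start_P : P (hole 0) start := ⟨fun i => Fin.succ_ne_zero i, fun _ => rfl⟩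

theorem reach {σ : Fin 19 ↪ Fin 20} (h : Relation.ReflTransGen game.Jump start σ) :
    ∃ s, P (hole s) σ := by
  induction h with
  | refl => exact ⟨0, start_P⟩
  | tail _ hJ ih =>
    obtain ⟨s, hs⟩ := ih
    exact ⟨s + 1, step hs hJ⟩

/-- **Theorem.** There is a diversity-seeking jump game whose topology is a finite tree (with 20 nodes),
with 19 agents of two types, hence with one empty node, which is not weakly acyclic: from some
assignment no finite sequence of improving jumps leads to an equilibrium. -/
theorem result : ∃ g : Game, g.G.IsTree ∧ Fintype.card g.V = 20 ∧ Fintype.card g.A = 19 ∧ g.k = 2 ∧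
    (∃ σ : g.A ↪ g.V, ∀ τ, Relation.ReflTransGen g.Jump σ τ → ¬ g.Equilibrium τ) ∧
    ¬ g.WeaklyAcyclic := by
  have key : ∀ τ, Relation.ReflTransGen game.Jump start τ → ¬ game.Equilibrium τ := by
    intro τ hτ hE
    obtain ⟨s, hs⟩ := reach hτ
    obtain ⟨τ', hτ'⟩ := exists_jump hs
    exact hE τ' hτ'
  refine ⟨game, T_tree, ?_, ?_, rfl, ⟨start, key⟩, ?_⟩
  · exact Fintype.card_fin 20
  · exact Fintype.card_fin 19
  · intro hW
    obtain ⟨τ, h1, h2⟩ := hW start
    exact key τ h1 h2

end Pool.Agent.Results.MP_39759c_lc.NotWeaklyAcyclic
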